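import Pool.Agent.Lib_helper13.HM.B2a
import Pool.Agent.Lib_helper69.HM.Z1
import Pool.Agent.Lib_helper69.HM.Z2

open MeasureTheory Finset Filter
open scoped ENNReal

namespace Pool.Agent.HM


/-- the sup norm -/
noncomputable def B2b_n (x : ℤ × ℤ) : ℝ := max |(x.1 : ℝ)| |(x.2 : ℝ)|

theorem B2b_mem {x : ℤ × ℤ} {k : ℕ} : x ∈ box k ↔ B2b_n x ≤ k := by
  unfold box B2b_n
  rw [Finset.mem_product, Finset.mem_Icc, Finset.mem_Icc, max_le_iff, abs_le, abs_le]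
  constructor
  · rintro ⟨⟨h1, h2⟩, h3, h4⟩
    refine ⟨⟨?_, ?_⟩, ?_, ?_⟩
    · exact_mod_cast h1
    · exact_mod_cast h2
    · exact_mod_cast h3
    · exact_mod_cast h4
  · rintro ⟨⟨h1, h2⟩, h3, h4⟩
    refine ⟨⟨?_, ?_⟩, ?_, ?_⟩
    · exact_mod_cast h1
    · exact_mod_cast h2
    · exact_mod_cast h3
    · exact_mod_cast h4

theorem B2b_card (k : ℕ) : (box k).card = (2 * k + 1) ^ 2 := by
  unfold box
  rw [Finset.card_product, Int.card_Icc]
  have : ((k : ℤ) + 1 - -(k : ℤ)).toNat = 2 * k + 1 := by omega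
  rw [this]
  ring

theorem B2b_step (x : ℤ × ℤ) (i : Bool) : |B2b_n (x + zstp i) - B2b_n x| ≤ 1 := by
  unfold B2b_n
  refine (abs_max_sub_max_le_max _ _ _ _).trans ?_
  apply max_le
  · refine (abs_abs_sub_abs_le _ _).trans ?_
    cases i <;> simp [zstp]
  · refine (abs_abs_sub_abs_le _ _).trans ?_
    cases i <;> simp [zstp]

/-- the profile -/
noncomputable def B2b_phi (a c : ℝ) (R : ℕ) (x : ℤ × ℤ) : ℝ :=
  max (c - a / 2 * max ((R : ℝ) + 1 - B2b_n x) 0) 0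

theorem B2b_phi_lip {a : ℝ} (ha : 0 < a) (c : ℝ) (R : ℕ) (x : ℤ × ℤ) (i : Bool) :
    |B2b_phi a c R (x + zstp i) - B2b_phi a c R x| ≤ a / 2 := by
  unfold B2b_phi
  refine (abs_max_sub_max_le_abs _ _ _).trans ?_
  have h1 : (c - a / 2 * max ((R : ℝ) + 1 - B2b_n (x + zstp i)) 0) -
      (c - a / 2 * max ((R : ℝ) + 1 - B2b_n x) 0) =
      a / 2 * (max ((R : ℝ) + 1 - B2b_n x) 0 - max ((R : ℝ) + 1 - B2b_n (x + zstp i)) 0) := by
    ring
  rw [h1, abs_mul, abs_of_pos (by positivity : (0 : ℝ) < a / 2)]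
  have h2 := abs_max_sub_max_le_abs ((R : ℝ) + 1 - B2b_n x) ((R : ℝ) + 1 - B2b_n (x + zstp i)) 0
  have h3 : ((R : ℝ) + 1 - B2b_n x) - ((R : ℝ) + 1 - B2b_n (x + zstp i)) =
      B2b_n (x + zstp i) - B2b_n x := by ring
  rw [h3] at h2
  have h4 := h2.trans (B2b_step x i)
  have h5 : (0 : ℝ) < a / 2 := by positivity
  nlinarith

theorem B2b_phi_nonneg (a c : ℝ) (R : ℕ) (x : ℤ × ℤ) : 0 ≤ B2b_phi a c R x := le_max_right _ _

theorem B2b_phi_le {a c : ℝ} (ha : 0 < a) (hc : 0 ≤ c) (R : ℕ) (x : ℤ × ℤ) :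
    B2b_phi a c R x ≤ c := by
  unfold B2b_phi
  apply max_le _ hc
  have : 0 ≤ a / 2 * max ((R : ℝ) + 1 - B2b_n x) 0 := by positivity
  linarith

theorem B2b_phi_out {a c : ℝ} (hc : 0 ≤ c) (R : ℕ) {x : ℤ × ℤ} (hx : x ∉ box R) :
    B2b_phi a c R x = c := by
  have h1 : ¬ (|x.1| ≤ (R : ℤ) ∧ |x.2| ≤ (R : ℤ)) := by
    rw [abs_le, abs_le]
    intro h
    apply hx
    unfold box
    rw [Finset.mem_product, Finset.mem_Icc, Finset.mem_Icc]
    exact h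
  have h2 : (R : ℝ) + 1 ≤ B2b_n x := by
    unfold B2b_n
    rw [not_and_or, not_le, not_le] at h1
    rcases h1 with h | h
    · refine le_trans ?_ (le_max_left _ _)
      have : (R : ℤ) + 1 ≤ |x.1| := h
      exact_mod_cast this
    · refine le_trans ?_ (le_max_right _ _)
      have : (R : ℤ) + 1 ≤ |x.2| := h
      exact_mod_cast this
  unfold B2b_phi
  rw [max_eq_right (by linarith : (R : ℝ) + 1 - B2b_n x ≤ 0)]
  simp [hc]

theorem B2b_phi_in {a c : ℝ} (ha : 0 < a) {R d : ℕ} (hd : d ≤ R) (hda : 2 * c / a ≤ d)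
    {x : ℤ × ℤ} (hx : B2b_n x ≤ ((R - d : ℕ) : ℝ) + 1) : B2b_phi a c R x = 0 := by
  have h0 : ((R - d : ℕ) : ℝ) = (R : ℝ) - d := by
    push_cast [Nat.cast_sub hd]
    ring
  rw [h0] at hx
  unfold B2b_phi
  apply max_eq_right
  have h1 : (d : ℝ) ≤ max ((R : ℝ) + 1 - B2b_n x) 0 := le_trans (by linarith) (le_max_left _ _)
  have h2 : 2 * c ≤ d * a := by
    rwa [div_le_iff₀ ha] at hda
  nlinarith

theorem B2b_nbr {B : Finset (ℤ × ℤ)} {k : ℕ} (hB : B = box k) {p : (ℤ × ℤ) × Bool}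
    (hp : p ∈ edges zstp B) : B2b_n p.1 ≤ (k : ℝ) + 1 ∧ B2b_n (p.1 + zstp p.2) ≤ (k : ℝ) + 1 := by
  rw [mem_edges, hB] at hp
  have h := abs_le.1 (B2b_step p.1 p.2)
  rcases hp with hp | hp
  · have h1 := B2b_mem.1 hp
    constructor <;> linarith
  · have h1 := B2b_mem.1 hp
    constructor <;> linarith

theorem B2b_prod_lb {A : Finset (ℤ × ℤ)} {F : ℤ × ℤ → ℝ≥0∞} {κ : ℝ}
    (h : ∀ x ∈ A, ENNReal.ofReal (Real.exp (-κ)) ≤ F x) :
    ENNReal.ofReal (Real.exp (-(κ * A.card))) ≤ ∏ x ∈ A, F x := by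
  calc ENNReal.ofReal (Real.exp (-(κ * A.card)))
      = ∏ _x ∈ A, ENNReal.ofReal (Real.exp (-κ)) := by
        rw [Finset.prod_const, ← ENNReal.ofReal_pow (Real.exp_pos _).le, ← Real.exp_nat_mul]
        congr 2
        ring
    _ ≤ ∏ x ∈ A, F x := Finset.prod_le_prod' h

theorem B2b_factor {r δ₁ ra m c φ lR K1 K : ℝ} (hδ₁ : 0 < δ₁) (hδ1 : δ₁ ≤ 1) (hr1 : 1 ≤ r)
    (hra : 0 < ra) (hc : 1 ≤ c) (hφ0 : 0 ≤ φ) (hφ : φ ≤ c) (hlR : lR = Real.log r)
    (hK1 : K1 = |Real.log (2 * δ₁ * ra ^ 4)|) (hK : K = 1 + K1 + 2 * m ^ 2) :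
    Real.exp (-(K * (lR + c ^ 2))) ≤
      2 * (δ₁ / r) * ra ^ 4 * Real.exp (-(m ^ 2 * (|φ| + δ₁ / r) ^ 2 / 2)) := by
  have hr0 : 0 < r := by linarith
  have hδr : δ₁ / r ≤ 1 := by
    rw [div_le_one hr0]
    linarith
  have hδr0 : 0 < δ₁ / r := by positivity
  have h1 : 2 * (δ₁ / r) * ra ^ 4 = Real.exp (Real.log (2 * δ₁ * ra ^ 4) - Real.log r) := by
    rw [Real.exp_sub, Real.exp_log (by positivity), Real.exp_log hr0]
    ring
  rw [h1, ← Real.exp_add]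
  apply Real.exp_le_exp.2
  have h2 : -K1 ≤ Real.log (2 * δ₁ * ra ^ 4) := by
    rw [hK1]
    exact neg_abs_le _
  have h3 : |φ| + δ₁ / r ≤ 2 * c := by
    rw [abs_of_nonneg hφ0]
    linarith
  have h4 : 0 ≤ |φ| + δ₁ / r := by positivity
  have h5 : (|φ| + δ₁ / r) ^ 2 ≤ (2 * c) ^ 2 := pow_le_pow_left₀ h4 h3 2
  have h6 : m ^ 2 * (|φ| + δ₁ / r) ^ 2 / 2 ≤ 2 * m ^ 2 * c ^ 2 := by
    have := mul_le_mul_of_nonneg_left h5 (sq_nonneg m)
    nlinarith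
  have h7 : 0 ≤ Real.log r := Real.log_nonneg hr1
  have h8 : 1 ≤ c ^ 2 := by nlinarith
  have hK10 : 0 ≤ K1 := by
    rw [hK1]
    exact abs_nonneg _
  have h9 : K * (lR + c ^ 2) = Real.log r + c ^ 2 + K1 * Real.log r + K1 * c ^ 2
      + 2 * m ^ 2 * Real.log r + 2 * m ^ 2 * c ^ 2 := by
    rw [hK, hlR]
    ring
  have h10 : K1 ≤ K1 * c ^ 2 := by nlinarith
  have h11 : 0 ≤ K1 * Real.log r := mul_nonneg hK10 h7
  have h12 : 0 ≤ 2 * m ^ 2 * Real.log r := mul_nonneg (by positivity) h7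
  have h13 : 0 ≤ c ^ 2 := by positivity
  rw [h9]
  linarith

theorem B2b_E {K2 K D C' q C R c L A : ℝ} (hK2 : 0 ≤ K2) (hK : 0 ≤ K) (hD : 0 ≤ D)
    (hC' : 0 ≤ C') (hq : 0 ≤ q) (hC : C = (K2 + K) * D + 9 * C' + q) (hR : 0 ≤ R) (hc : 0 ≤ c)
    (hL : 1 ≤ L) (hA0 : 0 ≤ A) (hA : A ≤ D * (R * c)) :
    K2 * A + 9 * C' * R + K * L * A ≤ C * (R * c * L + R) := by
  have h1 : K2 * A ≤ K2 * L * A := by
    have : K2 * 1 ≤ K2 * L := mul_le_mul_of_nonneg_left hL hK2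
    have h := mul_le_mul_of_nonneg_right this hA0
    linarith
  have h2 : (K2 + K) * L * A ≤ (K2 + K) * L * (D * (R * c)) :=
    mul_le_mul_of_nonneg_left hA (by positivity)
  have h3 : 0 ≤ R * c * L := by positivity
  have h6 : 0 ≤ (9 * C' + q) * (R * c * L) := by positivity
  have h7 : 0 ≤ ((K2 + K) * D + q) * R := by positivity
  have h5 : C * (R * c * L + R) = (K2 + K) * L * (D * (R * c)) + 9 * C' * R
      + ((9 * C' + q) * (R * c * L) + ((K2 + K) * D + q) * R) := by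
    rw [hC]
    ring
  rw [h5]
  linarith

theorem B2b_card_le {R d r : ℕ} {D c q : ℝ} (hr : R = d + r) (hD : D = 12 * q) (hR : 1 ≤ R)
    (hd : (d : ℝ) ≤ q * c) :
    (((2 * R + 1) ^ 2 - (2 * r + 1) ^ 2 : ℕ) : ℝ) ≤ D * (R * c) := by
  have h2 : (2 * R + 1) ^ 2 - (2 * r + 1) ^ 2 = 4 * d * (2 * r + d + 1) := by
    have h3 : (2 * R + 1) ^ 2 = 4 * d * (2 * r + d + 1) + (2 * r + 1) ^ 2 := by
      rw [hr]
      ring
    omega
  rw [h2]
  push_cast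
  have h5 : (R : ℝ) = d + r := by exact_mod_cast hr
  have h1 : (1 : ℝ) ≤ R := by exact_mod_cast hR
  have h6 : (0 : ℝ) ≤ d := Nat.cast_nonneg _
  have h7 : (0 : ℝ) ≤ r := Nat.cast_nonneg _
  have h8 : (2 * (r : ℝ) + d + 1) ≤ 3 * R := by linarith
  have h9 : 4 * (d : ℝ) * (2 * r + d + 1) ≤ 4 * d * (3 * R) :=
    mul_le_mul_of_nonneg_left h8 (by positivity)
  have h10 : 4 * (d : ℝ) * (3 * R) ≤ 4 * (q * c) * (3 * R) := by
    have : 4 * (d : ℝ) ≤ 4 * (q * c) := by linarith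
    exact mul_le_mul_of_nonneg_right this (by positivity)
  rw [hD]
  linarith

theorem B2b_final {Z Z' Y P Q : ℝ≥0∞} {K2 A T V E F : ℝ}
    (hup : Z ≤ Q * Z') (hQ : Q ≤ ENNReal.ofReal (Real.exp (K2 * A)))
    (hlow : ENNReal.ofReal (Real.exp (-V)) ≤ P)
    (hwin : P * (ENNReal.ofReal (Real.exp (-T)) * Z') ≤ Y) (hE : E = K2 * A + T + V)
    (hF : E ≤ F) : Z ≤ ENNReal.ofReal (Real.exp F) * Y := by
  calc Z ≤ Q * Z' := hup
    _ ≤ ENNReal.ofReal (Real.exp (K2 * A)) * Z' := by gcongr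
    _ = ENNReal.ofReal (Real.exp E) * (ENNReal.ofReal (Real.exp (-V)) *
          (ENNReal.ofReal (Real.exp (-T)) * Z')) := by
        rw [← mul_assoc, ← mul_assoc, ← ENNReal.ofReal_mul (Real.exp_pos _).le, ← Real.exp_add,
          ← ENNReal.ofReal_mul (Real.exp_pos _).le, ← Real.exp_add]
        congr 3
        rw [hE]
        ring
    _ ≤ ENNReal.ofReal (Real.exp E) * (P * (ENNReal.ofReal (Real.exp (-T)) * Z')) := by gcongr
    _ ≤ ENNReal.ofReal (Real.exp E) * Y := by gcongr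
    _ ≤ ENNReal.ofReal (Real.exp F) * Y := by gcongr

theorem B2b_pow (x : ℝ) (hx : 0 < x) (n : ℕ) :
    ENNReal.ofReal x ^ n ≤ ENNReal.ofReal (Real.exp (|Real.log x| * n)) := by
  have h1 : ENNReal.ofReal x ≤ ENNReal.ofReal (Real.exp |Real.log x|) := by
    apply ENNReal.ofReal_le_ofReal
    calc x = Real.exp (Real.log x) := (Real.exp_log hx).symm
      _ ≤ Real.exp |Real.log x| := Real.exp_le_exp.2 (le_abs_self _)
  calc ENNReal.ofReal x ^ n ≤ ENNReal.ofReal (Real.exp |Real.log x|) ^ n := by gcongr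
    _ = ENNReal.ofReal (Real.exp (|Real.log x| * n)) := by
        rw [← ENNReal.ofReal_pow (Real.exp_pos _).le, ← Real.exp_nat_mul]
        congr 2
        ring

/-- the ramp: the cost of constant boundary values `c` in the box `R`, the height is reached in
an annulus of `d` sites -/
theorem ramp_finite {ρ : ℝ → ℝ} (hρ : EdgeWeight ρ) {m : ℝ} (hm : 0 < m) :
    ∃ C : ℝ, 0 < C ∧ ∀ R : ℕ, 2 ≤ R → ∀ c : ℝ, 1 ≤ c → C * c ≤ R →
      lm (box R) (wt ρ m zstp (box R)) 0 ≤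
        ENNReal.ofReal (Real.exp (C * (R * c * (Real.log R + c ^ 2) + R))) *
          lm (box R) (wt ρ m zstp (box R)) (fun _ => c) := by
  obtain ⟨a, ha, hρa⟩ := hρ.pos
  obtain ⟨C', hC', δ₀, hδ₀, hsm⟩ := small_bdry' hρ hm
  obtain ⟨δ₁, hδ₁0, hδ₁a, hδ₁0', hδ₁1⟩ : ∃ δ₁ : ℝ, 0 < δ₁ ∧ δ₁ ≤ a / 8 ∧ δ₁ ≤ δ₀ ∧ δ₁ ≤ 1 :=
    ⟨min (min (a / 8) δ₀) 1, lt_min (lt_min (by positivity) hδ₀) one_pos,
      (min_le_left _ _).trans (min_le_left _ _), (min_le_left _ _).trans (min_le_right _ _),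
      min_le_right _ _⟩
  obtain ⟨K1, hK1⟩ : ∃ K1 : ℝ, K1 = |Real.log (2 * δ₁ * ρ a ^ 4)| := ⟨_, rfl⟩
  obtain ⟨K, hK⟩ : ∃ K : ℝ, K = 1 + K1 + 2 * m ^ 2 := ⟨_, rfl⟩
  obtain ⟨K2, hK2⟩ : ∃ K2 : ℝ, K2 = |Real.log (Real.sqrt (2 * Real.pi) / m)| := ⟨_, rfl⟩
  obtain ⟨D, hD⟩ : ∃ D : ℝ, D = 12 * (2 / a + 1) := ⟨_, rfl⟩
  obtain ⟨C, hC⟩ : ∃ C : ℝ, C = (K2 + K) * D + 9 * C' + (2 / a + 1) := ⟨_, rfl⟩
  have hK10 : 0 ≤ K1 := by
    rw [hK1]
    exact abs_nonneg _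
  have hK0 : 0 ≤ K := by
    rw [hK]
    positivity
  have hK20 : 0 ≤ K2 := by
    rw [hK2]
    exact abs_nonneg _
  have hq0 : 0 < 2 / a + 1 := by positivity
  have hD0 : 0 ≤ D := by
    rw [hD]
    positivity
  have hCq : 2 / a + 1 ≤ C := by
    rw [hC]
    have : 0 ≤ (K2 + K) * D + 9 * C' := by positivity
    linarith
  refine ⟨C, by linarith, ?_⟩
  intro R hR c hc hCR
  have hR2 : (2 : ℝ) ≤ R := by exact_mod_cast hR
  have hR0 : (0 : ℝ) < R := by linarith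
  obtain ⟨d, hd1, hd2⟩ : ∃ d : ℕ, 2 * c / a ≤ d ∧ (d : ℝ) ≤ (2 / a + 1) * c := by
    refine ⟨⌈2 * c / a⌉₊, Nat.le_ceil _, ?_⟩
    have h1 : (⌈2 * c / a⌉₊ : ℝ) < 2 * c / a + 1 := Nat.ceil_lt_add_one (by positivity)
    have h2 : 2 * c / a = 2 / a * c := by ring
    rw [h2] at h1 ⊢
    linarith
  have hdR : d ≤ R := by
    have h1 : (2 / a + 1) * c ≤ C * c := mul_le_mul_of_nonneg_right hCq (by linarith)
    have : (d : ℝ) ≤ R := by linarith
    exact_mod_cast this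
  have hBB : box (R - d) ⊆ box R := by
    intro x hx
    rw [B2b_mem] at hx ⊢
    refine hx.trans ?_
    exact_mod_cast Nat.sub_le R d
  have hcardA : ((box R \ box (R - d)).card : ℝ) ≤ D * (R * c) := by
    rw [Finset.card_sdiff_of_subset hBB, B2b_card, B2b_card]
    exact B2b_card_le (by omega) hD (by omega) hd2
  have hδR : δ₁ / R ≤ δ₀ / R := div_le_div_of_nonneg_right hδ₁0' hR0.le
  have hδ1 : δ₁ / R ≤ δ₁ := by
    rw [div_le_iff₀ hR0]
    nlinarith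
  have hwin := window hρ (a := a) (δ := δ₁ / R) (by positivity) m zstp hBB (B2b_phi a c R)
    (fun _ => c)
    (fun x hx => (B2b_phi_out (by linarith) R hx).symm)
    (fun p _ _ => by
      have := B2b_phi_lip ha c R p.1 p.2
      linarith)
    (ENNReal.ofReal (Real.exp (-(9 * C' * R))) *
      lm (box (R - d)) (wt ρ m zstp (box (R - d))) 0)
    (by
      intro ξ' hξ'
      have hS : Small (box (R - d)) ξ' (δ₀ / R) := by
        intro p hp
        obtain ⟨h1, h2⟩ := B2b_nbr rfl hp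
        constructor
        · intro h3
          have h4 := hξ' _ h3
          rw [B2b_phi_in ha hdR hd1 h1, sub_zero] at h4
          linarith
        · intro h3
          have h4 := hξ' _ h3
          rw [B2b_phi_in ha hdR hd1 h2, sub_zero] at h4
          linarith
      refine le_trans ?_ (hsm (box (R - d)) R (by linarith) ξ' hS)
      have h7 : Real.exp (-(9 * C' * R)) ≤ Real.exp (-(C' * (box (R - d)).card / R)) := by
        apply Real.exp_le_exp.2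
        rw [neg_le_neg_iff, div_le_iff₀ hR0]
        have h5 : ((box (R - d)).card : ℝ) ≤ (2 * R + 1) ^ 2 := by
          have : (box (R - d)).card ≤ (2 * R + 1) ^ 2 := by
            rw [← B2b_card R]
            exact Finset.card_le_card hBB
          exact_mod_cast this
        have h6 : ((2 : ℝ) * R + 1) ^ 2 ≤ 9 * R ^ 2 := by nlinarith
        have h8 : C' * ((box (R - d)).card : ℝ) ≤ C' * (9 * R ^ 2) :=
          mul_le_mul_of_nonneg_left (h5.trans h6) hC'.le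
        linarith
      exact mul_le_mul_left (ENNReal.ofReal_le_ofReal h7) _)
  have hlow : ENNReal.ofReal (Real.exp (-(K * (Real.log R + c ^ 2) *
      ((box R \ box (R - d)).card : ℝ)))) ≤
      ∏ x ∈ box R \ box (R - d), ENNReal.ofReal
        (2 * (δ₁ / R) * ρ a ^ 4 *
          Real.exp (-(m ^ 2 * (|B2b_phi a c R x| + δ₁ / R) ^ 2 / 2))) := by
    apply B2b_prod_lb
    intro x _
    apply ENNReal.ofReal_le_ofReal
    exact B2b_factor hδ₁0 hδ₁1 (by linarith) hρa hc (B2b_phi_nonneg a c R x)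
      (B2b_phi_le ha (by linarith) R x) rfl hK1 hK
  have hup := lm_wt_le hρ hm zstp hBB (0 : ℤ × ℤ → ℝ)
  have hQ : ENNReal.ofReal (Real.sqrt (2 * Real.pi) / m) ^ (box R \ box (R - d)).card ≤
      ENNReal.ofReal (Real.exp (K2 * ((box R \ box (R - d)).card : ℝ))) := by
    rw [hK2]
    exact B2b_pow _ (by positivity) _
  have hlogc : 1 ≤ Real.log R + c ^ 2 := by
    have h7 : 0 ≤ Real.log R := Real.log_nonneg (by linarith)
    nlinarith
  exact B2b_final hup hQ hlow hwin rfl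
    (B2b_E hK20 hK0 hD0 hC'.le hq0.le hC hR0.le (by linarith) hlogc (Nat.cast_nonneg _) hcardA)

end Pool.Agent.HM
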