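import Pool.Agent.Lib_helper69.HM.G1
import Pool.Agent.Lib_helper69.HM.G3
import Pool.Agent.Lib_helper69.HM.P1
import Pool.Agent.Lib_helper69.HM.Z2

open MeasureTheory Finset
open scoped ENNReal

namespace Pool.Agent.HM

variable {ρ : ℝ → ℝ} {m : ℝ}

/-- invariance of the weight under an automorphism of the graph -/
theorem Y1_wt_comp {G : Type} [AddCommGroup G] [DecidableEq G] [Fintype G] (hρ : EdgeWeight ρ)
    (m : ℝ) (stp : Bool → G) (e : G ≃ G) (σ : Bool ≃ Bool)
    (h : ∀ i, (∀ x, e (x + stp i) = e x + stp (σ i)) ∨ (∀ x, e (x + stp i) = e x - stp (σ i)))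
    (f : G → ℝ) : wt ρ m stp univ (f ∘ e) = wt ρ m stp univ f := by
  unfold wt
  rw [edges_univ]
  congr 1
  · have key : ∀ i : Bool, ∏ x : G, ENNReal.ofReal (ρ ((f ∘ e) (x + stp i) - (f ∘ e) x)) =
        ∏ x : G, ENNReal.ofReal (ρ (f (x + stp (σ i)) - f x)) := by
      intro i
      rcases h i with h1 | h1
      · simp only [Function.comp_apply, h1]
        exact Equiv.prod_comp e (fun y => ENNReal.ofReal (ρ (f (y + stp (σ i)) - f y)))
      · simp only [Function.comp_apply, h1]
        rw [Equiv.prod_comp e (fun y => ENNReal.ofReal (ρ (f (y - stp (σ i)) - f y)))]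
        rw [← Equiv.prod_comp (Equiv.addRight (stp (σ i)))
          (fun y => ENNReal.ofReal (ρ (f (y - stp (σ i)) - f y)))]
        apply Finset.prod_congr rfl
        intro y _
        simp only [Equiv.coe_addRight, add_sub_cancel_right]
        rw [← hρ.even (f (y + stp (σ i)) - f y), neg_sub]
    rw [Fintype.prod_prod_type_right, Fintype.prod_prod_type_right]
    simp only [key]
    exact Equiv.prod_comp σ (fun i => ∏ x : G, ENNReal.ofReal (ρ (f (x + stp i) - f x)))
  · exact Equiv.prod_comp e (fun x => ENNReal.ofReal (Real.exp (-(m ^ 2 * f x ^ 2 / 2))))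

theorem Y1_Z_ne (hρ : EdgeWeight ρ) (N : ℕ) (k : Bool) :
    lm univ (wt ρ m (stpT N k) univ) (0 : Tor N → ℝ) ≠ 0 :=
  (lm_wt_pos_const hρ m (stpT N k) univ 0).ne'

theorem muT_prob (hρ : EdgeWeight ρ) (hm : 0 < m) (N : ℕ) (k : Bool) :
    IsProbabilityMeasure (muT ρ m N k) :=
  gib_prob (nice_wt hρ m (stpT N k) univ).meas univ 0 (Y1_Z_ne hρ N k)
    (lm_wt_lt_top hρ hm (stpT N k) univ 0).ne

/-- translation invariance -/
theorem muT_trans (hρ : EdgeWeight ρ) (N : ℕ) (k : Bool) (a : Tor N) :
    (muT ρ m N k).map (fun f x => f (x + a)) = muT ρ m N k := by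
  refine gib_map_equiv (nice_wt hρ m (stpT N k) univ).meas (Equiv.addRight a) ?_
  refine Y1_wt_comp hρ m (stpT N k) (Equiv.addRight a) (Equiv.refl Bool) ?_
  intro i
  left
  intro x
  simp only [Equiv.coe_addRight, Equiv.refl_apply]
  abel

theorem muT_neg (hρ : EdgeWeight ρ) (N : ℕ) (k : Bool) :
    (muT ρ m N k).map (fun f => -f) = muT ρ m N k := by
  have h := gib_map_neg (nice_wt hρ m (stpT N k) univ) univ (0 : Tor N → ℝ)
  rw [neg_zero] at h
  exact h

/-- reflection of the first coordinate -/
theorem muT_refl (hρ : EdgeWeight ρ) (N : ℕ) (k : Bool) :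
    (muT ρ m N k).map (fun f x => f (-x.1, x.2)) = muT ρ m N k := by
  let e : Tor N ≃ Tor N := (Equiv.neg (ZMod (2 * N + 2))).prodCongr (Equiv.refl (ZMod (2 * N + 2)))
  have he : ∀ x : Tor N, e x = (-x.1, x.2) := fun x => rfl
  have h := gib_map_equiv (nice_wt hρ m (stpT N k) univ).meas e ?_
  · exact h
  · cases k
    · refine Y1_wt_comp hρ m (stpT N false) e (Equiv.refl Bool) ?_
      intro i
      cases i
      · right
        intro x
        simp only [he, Equiv.refl_apply, stpT, Prod.ext_iff, Prod.fst_add, Prod.snd_add,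
          Prod.fst_sub, Prod.snd_sub, if_false, Bool.false_eq_true]
        constructor <;> first | trivial | ring
      · left
        intro x
        simp only [he, Equiv.refl_apply, stpT, Prod.ext_iff, Prod.fst_add, Prod.snd_add,
          if_false, if_true, Bool.false_eq_true]
        constructor <;> first | trivial | ring
    · refine Y1_wt_comp hρ m (stpT N true) e Equiv.boolNot ?_
      intro i
      right
      intro x
      cases i
      · simp only [he, Equiv.boolNot_apply, Bool.not_false, stpT, Prod.ext_iff, Prod.fst_add,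
          Prod.snd_add, Prod.fst_sub, Prod.snd_sub, if_true, if_false, Bool.false_eq_true]
        constructor <;> first | trivial | ring
      · simp only [he, Equiv.boolNot_apply, Bool.not_true, stpT, Prod.ext_iff, Prod.fst_add,
          Prod.snd_add, Prod.fst_sub, Prod.snd_sub, if_true, if_false, Bool.false_eq_true]
        constructor <;> first | trivial | ring

/-- exchange of the coordinates, usual steps -/
theorem muT_swap (hρ : EdgeWeight ρ) (N : ℕ) :
    (muT ρ m N false).map (fun f x => f (x.2, x.1)) = muT ρ m N false := by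
  let e : Tor N ≃ Tor N := Equiv.prodComm _ _
  have he : ∀ x : Tor N, e x = (x.2, x.1) := fun x => rfl
  have h := gib_map_equiv (nice_wt hρ m (stpT N false) univ).meas e ?_
  · exact h
  · refine Y1_wt_comp hρ m (stpT N false) e Equiv.boolNot ?_
    intro i
    left
    intro x
    cases i
    · simp only [he, Equiv.boolNot_apply, Bool.not_false, stpT, Prod.ext_iff, Prod.fst_add,
        Prod.snd_add, if_true, if_false, Bool.false_eq_true, and_self]
    · simp only [he, Equiv.boolNot_apply, Bool.not_true, stpT, Prod.ext_iff, Prod.fst_add,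
        Prod.snd_add, if_true, if_false, Bool.false_eq_true, and_self]

theorem muT_integrable_pow (hρ : EdgeWeight ρ) (hm : 0 < m) (N : ℕ) (k : Bool) (x : Tor N)
    (j : ℕ) : Integrable (fun f : Tor N → ℝ => f x ^ j) (muT ρ m N k) :=
  integrable_pow hρ hm (stpT N k) univ 0 (Y1_Z_ne hρ N k) (mem_univ x) j

theorem muT_mean (hρ : EdgeWeight ρ) (hm : 0 < m) (N : ℕ) (k : Bool) (x : Tor N) :
    ∫ f, f x ∂muT ρ m N k = 0 := by
  have h1 : ∫ f, f x ∂muT ρ m N k = ∫ f, -(f x) ∂muT ρ m N k := by
    conv_lhs => rw [← muT_neg hρ N k]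
    have hx : Measurable (fun f : Tor N → ℝ => f x) := measurable_pi_apply x
    rw [integral_map (by fun_prop) hx.aestronglyMeasurable]
    rfl
  rw [integral_neg] at h1
  linarith

theorem muT_tr_mean (hρ : EdgeWeight ρ) (hm : 0 < m) (L : ℝ) (hL : 0 ≤ L) (N : ℕ) (k : Bool)
    (x : Tor N) : ∫ f, tr L (f x) ∂muT ρ m N k = 0 := by
  have h0 : ∀ t : ℝ, tr L (-t) = -tr L t := by
    intro t
    unfold tr
    rcases le_total t L with h1 | h1
    · rcases le_total (-L) t with h2 | h2
      · have e1 : min (-t) L = -t := min_eq_left (by linarith)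
        have e2 : min t L = t := min_eq_left h1
        rw [e1, e2, max_eq_right (by linarith : -L ≤ -t), max_eq_right h2]
      · have e1 : min (-t) L = L := min_eq_right (by linarith)
        have e2 : min t L = t := min_eq_left h1
        rw [e1, e2, max_eq_right (by linarith : -L ≤ L), max_eq_left h2]
        ring
    · have e1 : min (-t) L = -t := min_eq_left (by linarith)
      have e2 : min t L = L := min_eq_right h1
      rw [e1, e2, max_eq_left (by linarith : -t ≤ -L), max_eq_right (by linarith : -L ≤ L)]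
  have hm1 : Measurable (tr L) := by
    unfold tr
    fun_prop
  have hm2 : Measurable (fun f : Tor N → ℝ => tr L (f x)) := hm1.comp (measurable_pi_apply x)
  have h1 : ∫ f, tr L (f x) ∂muT ρ m N k = ∫ f, -(tr L (f x)) ∂muT ρ m N k := by
    conv_lhs => rw [← muT_neg hρ N k]
    rw [integral_map (by fun_prop) hm2.aestronglyMeasurable]
    congr 1
    funext f
    exact h0 (f x)
  rw [integral_neg] at h1
  linarith

end Pool.Agent.HM
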